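import Pool.Agent.R739.RM.Fin
import Pool.Agent.R560.RM_SPI
import Pool.Agent.H340R2.LW

/-!
# Equidistribution modulo one of `η ξ π ^ n` for numbers `ξ` with random digits

The powers of `π` may be replaced by the powers of any transcendental number `α > 1`. The digits are
taken in any integer base `b`. The sequence may be shifted, and its terms may be weighted, by random
quantities which depend on the digits `D j` with `j ≤ κ n`, for some `κ < log_b α`; about
`n log_b α` digits of `ξ` determine the fractional part of `ξ α ^ n`.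
-/

set_option autoImplicit false

namespace Pool.Agent.R739.Old.RandomDigitsPi

open Finset Filter Topology MeasureTheory ProbabilityTheory

/-- equidistribution modulo one, as in the problem -/
def Equidistributed (u : ℕ → ℝ) : Prop := ∀ a b : ℝ, 0 ≤ a → a < b → b ≤ 1 →
  Tendsto (fun N : ℕ => (((Icc 1 N).filter
    (fun n : ℕ => a ≤ Int.fract (u n) ∧ Int.fract (u n) < b)).card : ℝ) / (N : ℝ)) atTop
    (𝓝 (b - a))

/-- equidistribution of the points `x 1, x 2, …` of `ℝ ^ m` in the torus `(ℝ / ℤ) ^ m`: the averages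
of every continuous function tend to its integral -/
def EquidistributedTorus {m : ℕ} (x : ℕ → Fin m → ℝ) : Prop :=
  ∀ f : C(Fin m → UnitAddCircle, ℂ),
    Tendsto (fun N : ℕ => (∑ n ∈ Icc 1 N, f (fun i => (x n i : UnitAddCircle))) / (N : ℂ)) atTop
      (𝓝 (∫ z, f z))

/-- random digits: independent, uniformly bounded, and either integers, no value being taken with a
probability larger than `1 - c`, or identically distributed with at least two atoms -/
def DigitHypotheses {Ω : Type} [MeasurableSpace Ω] (P : Measure Ω) (D : ℕ → Ω → ℝ) : Prop :=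
  (∀ j, Measurable (D j)) ∧ iIndepFun D P ∧ (∃ M : ℝ, ∀ j ω, |D j ω| ≤ M) ∧
  (((∀ j ω, ∃ d : ℤ, D j ω = d) ∧ ∃ c : ℝ, 0 < c ∧ ∀ j d, P.real {ω | D j ω = d} ≤ 1 - c) ∨
    ((∀ j, IdentDistrib (D j) (D 0) P P) ∧
      ∃ x y : ℝ, x ≠ y ∧ 0 < P.real {ω | D 0 ω = x} ∧ 0 < P.real {ω | D 0 ω = y}))

/-- the σ-algebra generated by the digits `D j` with `j ≤ x` -/
abbrev Before {Ω : Type} (D : ℕ → Ω → ℝ) (x : ℝ) : MeasurableSpace Ω :=
  ⨆ j ∈ {j : ℕ | (j : ℝ) ≤ x}, MeasurableSpace.comap (D j) inferInstance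

/-- Let `α = π`, or let `α > 1` be any transcendental number. Let `b ≥ 2`, let
`ξ = ∑ D j / b ^ (j + 1)` with random digits `D j`, and let `κ < log α / log b`.

1. Let `η` be linearly independent over `ℚ`, and let the random weights `Z n`, `|Z n| ≤ 1`, and the
random shifts `Θ n` depend only on the digits `D j` with `j ≤ κ n`. Then almost surely
`(∑ n ≤ N, Z n (f (η ξ α ^ n + Θ n) - ∫ f)) / N` tends to `0` for all continuous `f` on the torus.

2. Let `η ≠ 0`, and let the random numbers `Θ n` depend only on the digits `D j` with `j ≤ κ n`.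
Then almost surely `η ξ α ^ n + Θ n` is equidistributed modulo one.

3. Let `η ≠ 0`, and let `θ n` be real numbers. Then `η ξ α ^ n + θ n` is almost surely completely
equidistributed. -/
theorem result (α : ℝ) (hα : α = Real.pi ∨ 1 < α ∧ Transcendental ℚ α) (b : ℕ) (hb : 2 ≤ b)
    {Ω : Type} [MeasurableSpace Ω] (P : Measure Ω) [IsProbabilityMeasure P] (D : ℕ → Ω → ℝ)
    (hD : DigitHypotheses P D) (κ : ℝ) (hκ : κ < Real.log α / Real.log b)
    (ξ : Ω → ℝ) (hξ : ξ = fun ω => ∑' j, D j ω / (b : ℝ) ^ (j + 1)) :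
    (∀ (m : ℕ) (η : Fin m → ℝ), LinearIndependent ℚ η →
      ∀ (Z : ℕ → Ω → ℂ) (Θ : ℕ → Ω → Fin m → ℝ), (∀ n ω, ‖Z n ω‖ ≤ 1) →
      (∀ n : ℕ, Measurable[Before D (κ * n)] (Z n)) →
      (∀ n : ℕ, Measurable[Before D (κ * n)] (Θ n)) →
      ∀ᵐ ω ∂P, ∀ f : C(Fin m → UnitAddCircle, ℂ), Tendsto (fun N : ℕ => (∑ n ∈ Icc 1 N, Z n ω *
        (f (fun i => ((η i * ξ ω * α ^ n + Θ n ω i : ℝ) : UnitAddCircle)) - ∫ y, f y)) /
        (N : ℂ)) atTop (𝓝 0)) ∧
    (∀ η : ℝ, η ≠ 0 → ∀ Θ : ℕ → Ω → ℝ, (∀ n : ℕ, Measurable[Before D (κ * n)] (Θ n)) →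
      ∀ᵐ ω ∂P, Equidistributed (fun n => η * ξ ω * α ^ n + Θ n ω)) ∧
    (∀ η : ℝ, η ≠ 0 → ∀ θ : ℕ → ℝ, ∀ᵐ ω ∂P, ∀ m : ℕ,
      EquidistributedTorus fun n (i : Fin m) => η * ξ ω * α ^ (n + (i : ℕ)) + θ (n + i)) := by
  have h : 1 < α ∧ Transcendental ℚ α := by
    rcases hα with rfl | h
    · exact ⟨by linarith [Real.pi_gt_three], Pool.Agent.H340R2.LW.transcendental_pi⟩
    · exact h
  have hirr : ∀ s : ℕ, 1 ≤ s → Irrational (α ^ s) := by
    intro s hs hq
    obtain ⟨q, hq⟩ := hq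
    have h1 : Transcendental ℚ (α ^ s) := h.2.pow hs
    rw [← hq] at h1
    exact h1 (isAlgebraic_algebraMap q)
  have hmain := Pool.Agent.R739.RM.main P b hb D hD α h.1
    (Pool.Agent.R560.RM_SPI α h.1 hirr b hb) κ hκ
  rw [hξ]
  exact ⟨hmain.1, hmain.2, fun η hη θ =>
    Pool.Agent.R739.RM.complete_of P D α κ h.2 _ hmain η hη θ⟩

end Pool.Agent.R739.Old.RandomDigitsPi
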